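import Mathlib
import Pool.Agent.H11.Iso.Defs
import Pool.Agent.H11.Iso.Box

open Pool.Agent.H11.Iso

theorem Pool.Agent.Results.MP_5333ad_co.Disproof.result :
    ∀ c : ℝ, 0 < c → ∃ d : ℕ, 1 ≤ d ∧ ∀ ε₀ : ℝ, 0 < ε₀ → ∃ ε : ℝ, 0 < ε ∧ ε < ε₀ ∧
      ∃ S : Finset (Fin d → ℤ), S.Nonempty ∧
        ((edgeBoundary S).ncard : ℝ) ≤ 2 * d * (S.card : ℝ) ^ (((d : ℝ) - 1) / d) * (1 + ε) ∧
        ∀ (a : Fin d → ℤ) (k : ℕ), 1 ≤ k →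
          c * √(d * ε) * S.card < ((symmDiff S (cube a k)).card : ℝ) :=
  main
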